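import Pool.Agent.Q229.QP4.Defs

set_option autoImplicit false

/-!
# Outer k-quasi-planar graphs: the reduction is computable in polynomial time
-/

namespace Pool.Agent.Q111.QP4

open Pool.Agent.NPC Pool.Agent.NPC.WC648 Pool.Agent.Q229.QP4
open Pool.Agent.H619R2.QP (poly_prod)

theorem poly_srcT (h1 : NPC.Poly elT) (h2 : UPoly Ef) (q : ℕ) : NPC.Poly (srcT q) := by
  have hc : UPoly (fun φ : NF => cpf q (Ef φ)) := UPoly.mul (UPoly.const (2 * (q + 4))) h2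
  have hr := UPoly.range hc
  have hcp := hc.toPoly
  obtain ⟨R, hR⟩ : ∃ R : NF → List ℕ, ∀ φ, List.range (cpf q (Ef φ)) = R φ := ⟨_, fun _ => rfl⟩
  obtain ⟨C, hC⟩ : ∃ C : NF → ℕ, ∀ φ, cpf q (Ef φ) = C φ := ⟨_, fun _ => rfl⟩
  have hr' : NPC.Poly R := hr.congr fun φ => hR φ
  have hc' : NPC.Poly C := hcp.congr fun φ => hC φ
  have hpp : NPC.Poly (fun p : NF × Tst => (R p.1).product (R p.1)) :=
    poly_prod (hr'.comp (NPC.Poly.fst NPC.Poly.id)) (hr'.comp (NPC.Poly.fst NPC.Poly.id))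
  have hbl : NPC.Poly (fun p : NF × Tst => blT q (Ef p.1) p.2) := by
    unfold blT ch
    simp only [hR]
    simp only [hC]
    refine NPC.Poly.flatMap (F := fun (p : NF × Tst) (a : ℕ × ℕ) =>
      ((R p.1).product (R p.1)).map (fun b : ℕ × ℕ =>
        ((1 + (p.2.1.1 * C p.1 + a.1), 1 + (p.2.1.2 * C p.1 + a.2)),
          (1 + (p.2.2.1 * C p.1 + b.1), 1 + (p.2.2.2 * C p.1 + b.2))))) hpp ?_
    refine NPC.Poly.map (F := fun (x : (NF × Tst) × (ℕ × ℕ)) (b : ℕ × ℕ) =>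
        ((1 + (x.1.2.1.1 * C x.1.1 + x.2.1), 1 + (x.1.2.1.2 * C x.1.1 + x.2.2)),
          (1 + (x.1.2.2.1 * C x.1.1 + b.1), 1 + (x.1.2.2.2 * C x.1.1 + b.2))))
      (hpp.comp (NPC.Poly.fst NPC.Poly.id)) ?_
    fun_prop
  exact NPC.Poly.flatMap (F := fun (φ : NF) (t : Tst) => blT q (Ef φ) t) h1 hbl

section

variable (q : ℕ) (h1 : NPC.Poly elT) (h2 : UPoly Ef)

include h1 h2

theorem u_Mq : UPoly (Mq q) := UPoly.add (UPoly.length (poly_srcT h1 h2 q)) (UPoly.const 1)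

theorem u_Lf : UPoly (fun φ => Lf q (Mq q φ)) :=
  UPoly.add (UPoly.add (UPoly.mul (UPoly.const (q + 2)) (u_Mq q h1 h2))
    (UPoly.const (4 * (q + 2)))) (UPoly.const 6)

theorem u_Tf : UPoly (fun φ => Tf q (Mq q φ)) :=
  UPoly.add (UPoly.mul (UPoly.const (q + 4)) (UPoly.mul (UPoly.const 2)
    (UPoly.mul (UPoly.add (UPoly.add (UPoly.mul (UPoly.const 2) (u_Lf q h1 h2)) (u_Mq q h1 h2))
      (UPoly.const 5)) (UPoly.const (q + 3))))) (UPoly.const 1)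

omit h1 in
theorem u_srcN : UPoly (srcN q) :=
  UPoly.add (UPoly.const 1) (UPoly.mul h2 (UPoly.mul (UPoly.const (2 * (q + 4))) h2))

theorem u_Bf : UPoly (Bf q) :=
  UPoly.add (UPoly.add (u_Lf q h1 h2) (u_srcN q h2)) (UPoly.const (q + 3))

theorem poly_box' : NPC.Poly (box q) :=
  poly_prod (UPoly.range (UPoly.add (u_Tf q h1 h2) (UPoly.const 1)))
    (poly_prod (UPoly.range (UPoly.add (UPoly.mul (UPoly.const 2) (u_Mq q h1 h2)) (UPoly.const 3)))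
      (UPoly.range (u_Bf q h1 h2)))

theorem poly_gvB' : NPC.Poly (fun p : NF × V3 => gvB q p.1 p.2) := by
  have hM := (u_Mq q h1 h2).toPoly
  have hL := (u_Lf q h1 h2).toPoly
  have hT := (u_Tf q h1 h2).toPoly
  have hN := (u_srcN q h2).toPoly
  obtain ⟨L, eL⟩ : ∃ L : NF → ℕ, ∀ φ, Lf q (Mq q φ) = L φ := ⟨_, fun _ => rfl⟩
  obtain ⟨T, eT⟩ : ∃ T : NF → ℕ, ∀ φ, Tf q (Mq q φ) = T φ := ⟨_, fun _ => rfl⟩
  obtain ⟨M, eM⟩ : ∃ M : NF → ℕ, ∀ φ, Mq q φ = M φ := ⟨_, fun _ => rfl⟩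
  obtain ⟨S, eS⟩ : ∃ S : NF → ℕ, ∀ φ, srcN q φ = S φ := ⟨_, fun _ => rfl⟩
  have hM' : NPC.Poly M := hM.congr eM
  have hL' : NPC.Poly L := hL.congr eL
  have hT' : NPC.Poly T := hT.congr eT
  have hS' : NPC.Poly S := hN.congr eS
  unfold gvB
  simp only [eL, eT]
  simp only [eM, eS]
  fun_prop

theorem poly_VL' : NPC.Poly (VL q) :=
  NPC.Poly.filter (p := gvB q) (poly_box' q h1 h2) (poly_gvB' q h1 h2)

omit h1 h2 in
theorem poly_tEB {α : Type} [TEnc α] {ts : α → List Tst} {j a b : α → ℕ} (hts : NPC.Poly ts)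
    (hj : NPC.Poly j) (ha : NPC.Poly a) (hb : NPC.Poly b) :
    NPC.Poly (fun x => tEB (ts x) (j x) (a x) (b x)) := by
  have ht : NPC.Poly (fun x => tst (ts x) (j x)) := by
    unfold tst
    fun_prop
  obtain ⟨t, et⟩ : ∃ t : α → Tst, ∀ x, tst (ts x) (j x) = t x := ⟨_, fun _ => rfl⟩
  have ht' : NPC.Poly t := ht.congr et
  unfold tEB
  simp only [et]
  fun_prop

theorem poly_gaB' : NPC.Poly (fun p : NF × (V3 × V3) => gaB q p.1 p.2.1 p.2.2) := by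
  have hM := (u_Mq q h1 h2).toPoly
  have hL := (u_Lf q h1 h2).toPoly
  have hS := poly_srcT h1 h2 q
  have hE : NPC.Poly (fun p : NF × (V3 × V3) =>
      tEB (srcT q p.1) (p.2.1.2.1 / 2) p.2.1.2.2 p.2.2.2.2) :=
    poly_tEB (hS.comp (NPC.Poly.fst NPC.Poly.id)) (by fun_prop) (by fun_prop) (by fun_prop)
  obtain ⟨L, eL⟩ : ∃ L : NF → ℕ, ∀ φ, Lf q (Mq q φ) = L φ := ⟨_, fun _ => rfl⟩
  obtain ⟨M, eM⟩ : ∃ M : NF → ℕ, ∀ φ, Mq q φ = M φ := ⟨_, fun _ => rfl⟩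
  obtain ⟨Z, eZ⟩ : ∃ Z : NF × (V3 × V3) → Bool, ∀ p : NF × (V3 × V3),
      tEB (srcT q p.1) (p.2.1.2.1 / 2) p.2.1.2.2 p.2.2.2.2 = Z p := ⟨_, fun _ => rfl⟩
  have hM' : NPC.Poly M := hM.congr eM
  have hL' : NPC.Poly L := hL.congr eL
  have hZ' : NPC.Poly Z := hE.congr eZ
  unfold gaB
  simp only [eL, eZ]
  simp only [eM]
  fun_prop

theorem poly_EL' : NPC.Poly (EL q) :=
  NPC.Poly.filter (p := fun (φ : NF) (x : V3 × V3) => gaB q φ x.1 x.2)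
    (poly_prod (poly_VL' q h1 h2) (poly_VL' q h1 h2)) (poly_gaB' q h1 h2)

theorem poly_cd' {α : Type} [TEnc α] {φ : α → NF} {v : α → V3} (hφ : NPC.Poly φ)
    (hv : NPC.Poly v) : NPC.Poly (fun a => cd q (φ a) (v a)) := by
  have hM := (u_Mq q h1 h2).toPoly
  have hB := (u_Bf q h1 h2).toPoly
  obtain ⟨M, eM⟩ : ∃ M : NF → ℕ, ∀ φ, Mq q φ = M φ := ⟨_, fun _ => rfl⟩
  obtain ⟨B, eB⟩ : ∃ B : NF → ℕ, ∀ φ, Bf q φ = B φ := ⟨_, fun _ => rfl⟩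
  have hM' : NPC.Poly M := hM.congr eM
  have hB' : NPC.Poly B := hB.congr eB
  unfold cd
  simp only [eM, eB]
  fun_prop

theorem poly_gr' : NPC.Poly (gr q) :=
  NPC.Poly.pair
    (NPC.Poly.map (F := fun (φ : NF) (v : V3) => cd q φ v) (poly_VL' q h1 h2)
      (poly_cd' q h1 h2 (NPC.Poly.fst NPC.Poly.id) (NPC.Poly.snd NPC.Poly.id)))
    (NPC.Poly.map (F := fun (φ : NF) (p : V3 × V3) => (cd q φ p.1, cd q φ p.2))
      (poly_EL' q h1 h2)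
      (NPC.Poly.pair (poly_cd' q h1 h2 (NPC.Poly.fst NPC.Poly.id)
          (NPC.Poly.fst (NPC.Poly.snd NPC.Poly.id)))
        (poly_cd' q h1 h2 (NPC.Poly.fst NPC.Poly.id) (NPC.Poly.snd (NPC.Poly.snd NPC.Poly.id)))))

end

theorem t_PolyStm : PolyStm := fun h1 h2 q => poly_gr' q h1 h2

end Pool.Agent.Q111.QP4
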